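import Pool.Agent.Helper21.TM.M7A
import Pool.Agent.Helper91.TM.Q

/-!
MP_c75db0, Plan W, row M7 (Taylor models): validity of the approximate square root.
-/

set_option autoImplicit false
noncomputable section
namespace Pool.Agent.Helper91.TM

open Pool.Agent.Helper91.TMK (AOK)

theorem sqT_vl {s i : ℕ} {x : TP} (hx : VLT x) : VLT (sqT s i x) := by
  have hA : AOK 3 lfT AT := AT_ok
  have c : ∀ n, VLT (rcT n) := fun n => hA.vcs _
  have h1 : VLT oneT := hA.vcs _
  have hu : VLT (subT (mulT (rcT i) x) oneT) := hA.vsub (hA.vmul (c _) hx) h1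
  have hv := hA.vmul hu hu
  have hw := hA.vmul hv hv
  exact hA.vmul (c _) (hA.vsub (hA.vsub (hA.vadd h1 (hA.vmul (c _) hu))
    (hA.vmul hv (hA.vsub (c _) (hA.vmul (c _) hu))))
    (hA.vmul hw (hA.vadd (hA.vsub (c _) (hA.vmul (c _) hu)) (hA.vmul (c _) hv))))

end Pool.Agent.Helper91.TM
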