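import Pool.Agent.Helper91.TM.V
import Pool.Agent.Helper82.CW.TST

/-!
Taylor model machine (MP_c75db0, star frame): conversion of the models of a machine `Mch` to
models of `KerT` (trees of controls), before the leaf tests.
-/

set_option autoImplicit false
noncomputable section
namespace Pool.Agent.Helper91.TMK.TST

open Pool.Agent.Helper90.C75 (Vt avg wtT Mod)
open Pool.Agent.Helper90.KMO (UU UU_pos)
open Pool.Agent.Helper86.CX (Cx andB)
open Pool.Agent.Helper86.CT (N3 Alg Mo KM mk)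
open Pool.Agent.Helper17.K9 (V9)
open Pool.Agent.Helper62.TVM (V3m)
open Pool.Agent.Helper6.MONO (V3)
open Pool.Agent.Helper6.MONO.W2 (Mt)

/-! ### models of a hermitian matrix -/

/-- MODELS OF A HERMITIAN MATRIX -/
structure HK {α : Type} (D : ℕ) (lf : Mch α) (t : ℕ → ℝ) (K : Mt) (M : KM α) : Prop where
  a : TOK D lf t (K 0 0) M.a
  b : TOK D lf t (K 1 1) M.b
  c : TOK D lf t (K 2 2) M.c
  x : TOK D lf t (K 0 1) M.x
  y : TOK D lf t (K 0 2) M.y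
  w : TOK D lf t (K 1 2) M.w
  hm : ∀ i j, K j i = star (K i j)

/-! ### kernel side -/

/-- a conversion: tree, radius, validity -/
structure Cvt (α τ : Type) where
  cv : α → τ
  cr : α → Nat
  ok : α → Bool

section

variable {α τ : Type}

def cvM (V : Cvt α τ) (B : Alg τ) (m : Mo α) : Mo τ := mk B (V.cv m.v) (Nat.add m.r (V.cr m.v))
def okM (V : Cvt α τ) (m : Mo α) : Bool := V.ok m.v

def cvV (V : Cvt α τ) (B : Alg τ) (M : V9 α) : V9 τ :=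
  ⟨cvM V B M.a, cvM V B M.b, cvM V B M.c, cvM V B M.d, cvM V B M.e, cvM V B M.f, cvM V B M.g,
    cvM V B M.h, cvM V B M.i⟩
def okV (V : Cvt α τ) (M : V9 α) : Bool :=
  andB (okM V M.a) (andB (okM V M.b) (andB (okM V M.c) (andB (okM V M.d) (andB (okM V M.e)
    (andB (okM V M.f) (andB (okM V M.g) (andB (okM V M.h) (okM V M.i))))))))
def cvW (V : Cvt α τ) (B : Alg τ) (M : V3m α) : V3m τ := ⟨cvM V B M.a, cvM V B M.b, cvM V B M.c⟩
def okW (V : Cvt α τ) (M : V3m α) : Bool := andB (okM V M.a) (andB (okM V M.b) (okM V M.c))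
def cvK (V : Cvt α τ) (B : Alg τ) (M : KM α) : KM τ :=
  ⟨cvM V B M.a, cvM V B M.b, cvM V B M.c, cvM V B M.x, cvM V B M.y, cvM V B M.w⟩
def okK (V : Cvt α τ) (M : KM α) : Bool :=
  andB (okM V M.a) (andB (okM V M.b) (andB (okM V M.c) (andB (okM V M.x) (andB (okM V M.y)
    (okM V M.w)))))

end

/-! ### real side -/

/-- THE LAWS OF A CONVERSION -/
structure CvtL {α τ : Type} (D : ℕ) (lf : Mch α) (lt : τ → Vt D → ℂ) (V : Cvt α τ) : Prop where
  gd : ∀ {x : α}, lf.vl x → V.ok x = true → lf.gd x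
  ok : ∀ {x : α} {t : ℕ → ℝ}, lf.vl x → V.ok x = true → PT D t →
    ‖lf.ev x t - avg (wtT D t) (lt (V.cv x))‖ ≤ V.cr x

section

variable {α τ : Type} {D : ℕ} {lf : Mch α} {lt : τ → Vt D → ℂ} {B : Alg τ} {V : Cvt α τ}
  {t : ℕ → ℝ}

theorem andB_tt {a b : Bool} (h : andB a b = true) : a = true ∧ b = true :=
  Pool.Agent.Helper90.KMO.andB_t h

/-- a converted model -/
theorem TOK_cv (hB : Pool.Agent.Helper90.KMT.AOK D lt B) (hV : CvtL D lf lt V) (hP : PT D t)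
    {f : ℂ} {m : Mo α} (h : TOK D lf t f m) (ho : okM V m = true) :
    Pool.Agent.Helper90.KMT.TOK D lt t f (cvM V B m) := by
  refine ⟨Pool.Agent.Helper90.KMT.vt_mk hB _ _, ?_⟩
  show ‖(UU : ℂ) * f - avg (wtT D t) (lt (V.cv m.v))‖ ≤ ((m.r + V.cr m.v : ℕ) : ℝ)
  have h1 := h.mod (hV.gd h.val.vl ho)
  have h2 := hV.ok h.val.vl ho hP
  push_cast
  calc ‖(UU : ℂ) * f - avg (wtT D t) (lt (V.cv m.v))‖ =
      ‖((UU : ℂ) * f - lf.ev m.v t) + (lf.ev m.v t - avg (wtT D t) (lt (V.cv m.v)))‖ := by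
        congr 1
        ring
    _ ≤ _ := norm_add_le _ _
    _ ≤ _ := add_le_add h1 h2

theorem TV_cv (hB : Pool.Agent.Helper90.KMT.AOK D lt B) (hV : CvtL D lf lt V) (hP : PT D t)
    {N : Matrix (Fin 3) (Fin 3) ℂ} {M : V9 α} (h : TV D lf t N M) (ho : okV V M = true) :
    Pool.Agent.Helper62.TVM.TV D lt t N (cvV V B M) := by
  obtain ⟨o1, o⟩ := andB_tt ho
  obtain ⟨o2, o⟩ := andB_tt o
  obtain ⟨o3, o⟩ := andB_tt o
  obtain ⟨o4, o⟩ := andB_tt o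
  obtain ⟨o5, o⟩ := andB_tt o
  obtain ⟨o6, o⟩ := andB_tt o
  obtain ⟨o7, o⟩ := andB_tt o
  obtain ⟨o8, o9⟩ := andB_tt o
  exact ⟨TOK_cv hB hV hP h.a o1, TOK_cv hB hV hP h.b o2, TOK_cv hB hV hP h.c o3,
    TOK_cv hB hV hP h.d o4, TOK_cv hB hV hP h.e o5, TOK_cv hB hV hP h.f o6,
    TOK_cv hB hV hP h.g o7, TOK_cv hB hV hP h.h o8, TOK_cv hB hV hP h.i o9⟩

theorem TW_cv (hB : Pool.Agent.Helper90.KMT.AOK D lt B) (hV : CvtL D lf lt V) (hP : PT D t)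
    {x : Fin 3 → ℂ} {M : V3m α} (h : TW D lf t x M) (ho : okW V M = true) :
    Pool.Agent.Helper62.TVM.TW D lt t x (cvW V B M) := by
  obtain ⟨o1, o⟩ := andB_tt ho
  obtain ⟨o2, o3⟩ := andB_tt o
  exact ⟨TOK_cv hB hV hP h.a o1, TOK_cv hB hV hP h.b o2, TOK_cv hB hV hP h.c o3⟩

theorem HK_cv (hB : Pool.Agent.Helper90.KMT.AOK D lt B) (hV : CvtL D lf lt V) (hP : PT D t)
    {N : Mt} {M : KM α} (h : HK D lf t N M) (ho : okK V M = true) :
    Pool.Agent.Helper82.TST.HK D lt t N (cvK V B M) := by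
  obtain ⟨o1, o⟩ := andB_tt ho
  obtain ⟨o2, o⟩ := andB_tt o
  obtain ⟨o3, o⟩ := andB_tt o
  obtain ⟨o4, o⟩ := andB_tt o
  obtain ⟨o5, o6⟩ := andB_tt o
  exact ⟨TOK_cv hB hV hP h.a o1, TOK_cv hB hV hP h.b o2, TOK_cv hB hV hP h.c o3,
    TOK_cv hB hV hP h.x o4, TOK_cv hB hV hP h.y o5, TOK_cv hB hV hP h.w o6, h.hm⟩

end

end Pool.Agent.Helper91.TMK.TST
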