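import Pool.Agent.Helper21.TM.M7A
import Pool.Agent.Helper51.TM.PtK

/-!
MP_c75db0, Plan W, row M7 (Taylor models): THE CELL. From the tests of a cell to everything at its
points and to a piece of the window; the item tests, the inclusions and start / end are given by
their laws.
-/

set_option autoImplicit false
noncomputable section
namespace Pool.Agent.Helper91.TMK.SW

open Matrix
open Pool.Agent.Helper90.KMO (UU UU_pos andB_t)
open Pool.Agent.Helper86.CX (Cx andB)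
open Pool.Agent.Helper86.CT (N3 Alg Mo KM A3)
open Pool.Agent.Helper17.K9 (V9)
open Pool.Agent.Helper12.NKT (CovD Fm Le Lt Lt1 siT dfF allC nPc nQc oQc mxC nxC hzC ck)
open Pool.Agent.Helper51.FR (RTK)
open Pool.Agent.Helper91.BX (Bx Sb ParS PcG)
open Pool.Agent.Helper91.TMK.FR
open Pool.Agent.Helper91.TMK.PT
open Pool.Agent.Helper91.TMK.TST
open Pool.Agent.Helper6.MONO (V3 Kp xA xA_gt fB)
open Pool.Agent.Helper6.MONO.W2
open Pool.Agent.Helper6.MONO.W2.TY (leF leG fmC PtI PtS PtK PtA a0g pcG_of r4T)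
open Pool.Agent.Helper21.SW (T3 T4 lf3 lf4 s9C cmR adJ_s9)

section

variable {α κ γ δ : Type}

/-- THE TEST OF THE FAMILIES -/
def leA (M : Mn α) (C : Cel κ) : Bool :=
  allC (leK M.A (cenV M.V A3) (fun c => (C.L M c).w) C.tb (nPc C.D.le) (nQc C.D.le) (oQc C.D.le)
    (mxC C.D.mx) (nxC C.D.nx) (hzC C.D.nx)) (2 * C.D.p - 1)

/-- THE TESTS OF A CELL -/
structure CelK (M : Mn α) (I : IT α κ γ δ) (C : Cel κ) : Prop where
  ck : ck C.D = true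
  ce : ceK M C = true
  le : leA M C = true
  it : ItsA M I C C.D.it
  i1 : IvsA I C C.D.i1

/-- THE LAWS OF THE OTHER TESTS at the points of the cell: items, inclusions, start and end -/
structure CelL (lf : Mch α) (KV : κ → (ℕ → ℝ) → Mt) (M : Mn α) (I : IT α κ γ δ) (C : Cel κ)
    (U : Fin 3 → V3) (y0 : V3) (bd : ℝ) : Prop where
  gb : C.D.gb = true → 4 ≤ C.D.p
  it : ∀ {q r : ℕ} {x : ℝ} {t : ℕ → ℝ}, PtC lf M C q r x t → ∃ bc : ℕ → ℕ → Prop,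
    (C.D.gb = true → ∀ n, C.D.nB < n → ∃ i < C.D.NB, bc i n) ∧
    ITL lf KV I C q r x t (RTK C.tb (nW (phi C.D.p) (vX C q r x)) bc)
  ic : ∀ {q r : ℕ} {x : ℝ} {t : ℕ → ℝ}, PtC lf M C q r x t → ∀ i : ℕ,
    ∀ e ∈ (C.D.fm.getD i dfF).inc, NZ (Pool.Agent.Helper21.SW.cK (vX C q r x) (KV (C.fo e.1) t)) ⊆
      NZ (Pool.Agent.Helper21.SW.cK (vX C q r x) (KV (C.fo i) t))
  se : ∀ {q r : ℕ} {x : ℝ} {t : ℕ → ℝ}, PtC lf M C q r x t →
    PtS C.D (vX C q r x) (fun i => Pool.Agent.Helper21.SW.cK (vX C q r x) (KV (C.fo i) t)) (a0g C.D.gb) U y0 bd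
  ind : LinearIndependent ℂ U

variable {lf : Mch α} {KV : κ → (ℕ → ℝ) → Mt} {M : Mn α} {I : IT α κ γ δ} {C : Cel κ}
  {U : Fin 3 → V3} {y0 : V3} {bd : ℝ} {q r : ℕ} {x : ℝ} {t : ℕ → ℝ}

/-- **EVERYTHING AT A POINT** -/
theorem CelK.pt (hM : MnL lf M) (h : CelK M I C) (hL : CelL lf KV M I C U y0 bd)
    (hpq : C.D.p ≤ q) (hqr : q ≤ r) (hr4 : 4 ≤ r) (hxA : xA C.D.p q r ≤ x) (hx2 : x < 2)
    (hQ : C.D.gb = true → 0 ≤ fB C.D.p q r x) (hP : PT 3 t)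
    (hpar : ParS C.D.p q r C.S C.B x t) :
    PtA C.D (cmR (s9C C.s0)) (fun k => cmR (C.xk k)) U y0 bd q r x := by
  have hC := ptC_of hM h.ce hpq hqr hr4 hxA hx2 hQ hP hpar
  obtain ⟨bc, hbc, hI⟩ := hL.it hC
  refine ⟨RTK C.tb (nW (phi C.D.p) (vX C q r x)) bc, KC KV C q r x t, ?_, ?_, hL.se hC⟩
  · exact PtK_x hM.a3 hP (cenV_ok Pool.Agent.Helper21.SW.a3 hM.V hP) hC.hp
      (Pool.Agent.Helper6.MONO.W2.TY.ck_sound h.ck).nx2 hpq hqr hr4 hxA hx2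
      (W := fun c => (C.L M c).w) (fun g _ _ => (hC.L g).w) h.le hbc
  · exact {
      hS0 := adJ_s9 C.s0
      it := fun L hL' => its_sat hM.a3 hP hC.H hI (h.it L hL')
      i1 := fun L hL' => ivs_sati hI (h.i1 L hL')
      inc := hL.ic hC }

/-- **A PIECE OF THE WINDOW FROM THE TESTS OF A CELL** -/
theorem CelK.pc (hM : MnL lf M) (h : CelK M I C) (hL : CelL lf KV M I C U y0 bd)
    (h4 : r4T C.D.p C.B.A0 C.B.ra C.B.S0 C.B.rs = true) {Q : ℕ → ℕ → ℝ → Prop} {m : ℝ}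
    (hQ : ∀ q r x, Q q r x → C.D.gb = true → 0 ≤ fB C.D.p q r x) :
    PcG Q C.D.p m C.B.A0 C.B.A1 C.B.ra C.B.S0 C.B.S1 C.B.rs C.S C.B.W0 C.S C.B.W1 := by
  have hp : 3 ≤ C.D.p := Nat.le_of_ble_eq_true (andB_t h.ce).1
  exact pcG_of hp hL.gb h.ck h4 (cmR (s9C C.s0)) (fun k => cmR (C.xk k)) U hL.ind y0 bd
    (fun q r x t hpq hqr hr4 _ hx2 _ hxA hq hP hpar =>
      h.pt hM hL hpq hqr hr4 hxA hx2 (hQ q r x hq) hP hpar)

end

end Pool.Agent.Helper91.TMK.SW
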