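import Pool.Agent.Helper91.TM.V
import Pool.Agent.Helper91.BX.S

/-!
Taylor model machine (MP_c75db0, star frame): the models of the box for machines `Mch`. The kernel
definitions and the machine-free lemmas are those of `Helper91.BX`.
-/

set_option autoImplicit false
set_option exponentiation.threshold 4000
noncomputable section
namespace Pool.Agent.Helper91.TMK.BX

open Pool.Agent.Helper90.KMO (UU UU_pos cz zv zv_p andB_t)
open Pool.Agent.Helper86.C75 (Z)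
open Pool.Agent.Helper86.CX (Cx andB)
open Pool.Agent.Helper86.CT (N3 DF Alg Mo mk cst addM subM mulM invM invOK conjM)
open Pool.Agent.Helper6.MONO (Kp xA xA_eq xA_gt kap_mono fB)
open Pool.Agent.Helper6.MONO.W2 (phi ep Win cW)
open Pool.Agent.Helper62.TVM (cstC)
open Pool.Agent.Helper91.BX (afM foM BxM Bx Sb bxS bsM zM zr WB WB_false ParS sr WA tK tC tS tI tH
  tA tK_ok tC_ok tS_ok tI_ok tH_ok tA_ok cz_pp UU_eq cpx_sub Kp_b)

/-! ### the laws of a direction -/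

section

variable {α : Type} {D : ℕ} {lf : Mch α} {A : Alg α} {t : ℕ → ℝ} {qd : ℕ → Cx → Cx → Cx → α}

/-- a number which varies only in the direction `j` -/
structure CD {α : Type} (D j : ℕ) (lf : Mch α) (q : Cx → Cx → Cx → α) : Prop where
  vl : ∀ a c b : Cx, lf.vl (q a c b)
  av : ∀ (a c b : Cx) (t : ℕ → ℝ), lf.gd (q a c b) → PT D t →
    lf.ev (q a c b) t = (((1 - t j) ^ 2 : ℝ) : ℂ) * cz a +
      ((2 * t j * (1 - t j) : ℝ) : ℂ) * cz c + (((t j) ^ 2 : ℝ) : ℂ) * cz b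

/-- A REAL CONSTANT -/

theorem TOK_rc (hA : AOK D lf A) (hP : PT D t) {x : ℝ} {n r : ℕ} (h : |2 ^ 48 * x - n| ≤ (r : ℝ)) :
    TOK D lf t (x : ℂ) (cst A n r) := by
  refine TOK.cst hA hP n r ?_
  have e : (UU : ℂ) * x - n = ((2 ^ 48 * x - n : ℝ) : ℂ) := by
    rw [UU_eq]
    push_cast
    rfl
  rw [e, Complex.norm_real, Real.norm_eq_abs]
  exact h

/-- AN AFFINE FUNCTION IN ONE DIRECTION -/
theorem TOK_af (hA : AOK D lf A) (hP : PT D t) {j : ℕ} {q : Cx → Cx → Cx → α}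
    (hq : CD D j lf q) (hj : j < D) {κ : ℝ} {a b r : ℕ}
    (h : |2 ^ 48 * κ - ((1 - t j) * a + t j * b)| ≤ (r : ℝ)) : TOK D lf t (κ : ℂ) (afM A q a b r) := by
  refine ⟨vt_mk hA (hq.vl _ _ _) _, fun hg => ?_⟩
  have h0 := hP.h0 j hj
  have h1 := hP.h1 j hj
  set c : ℕ := Nat.div (Nat.add a b) (nat_lit 2) with hc
  show ‖(UU : ℂ) * κ - lf.ev (q ⟨Z.p a, Z.p (nat_lit 0)⟩ ⟨Z.p c, Z.p (nat_lit 0)⟩
    ⟨Z.p b, Z.p (nat_lit 0)⟩) t‖ ≤ ((Nat.add r (nat_lit 1) : ℕ) : ℝ)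
  rw [hq.av _ _ _ t hg hP, cz_pp, cz_pp, cz_pp]
  have e : (UU : ℂ) * κ - ((((1 - t j) ^ 2 : ℝ) : ℂ) * ⟨(a : ℝ), ((nat_lit 0 : ℕ) : ℝ)⟩ +
      ((2 * t j * (1 - t j) : ℝ) : ℂ) * ⟨(c : ℝ), ((nat_lit 0 : ℕ) : ℝ)⟩ +
      (((t j) ^ 2 : ℝ) : ℂ) * ⟨(b : ℝ), ((nat_lit 0 : ℕ) : ℝ)⟩) =
      ((2 ^ 48 * κ - ((1 - t j) * a + t j * b) - 2 * t j * (1 - t j) * (c - (a + b) / 2) : ℝ) : ℂ) := by
    rw [UU_eq]
    apply Complex.ext
    · simp only [Complex.sub_re, Complex.add_re, Complex.re_ofReal_mul, Complex.ofReal_re]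
      ring
    · simp only [Complex.sub_im, Complex.add_im, Complex.im_ofReal_mul, Complex.ofReal_im]
      simp
  rw [e, Complex.norm_real, Real.norm_eq_abs]
  have hc1 : (c : ℝ) ≤ (a + b) / 2 ∧ (a + b) / 2 ≤ (c : ℝ) + 1 := by
    have e1 : c = (a + b) / 2 := rfl
    have h2 : 2 * c ≤ a + b := by omega
    have h3 : a + b ≤ 2 * c + 1 := by omega
    have h2' : (2 : ℝ) * c ≤ a + b := by exact_mod_cast h2
    have h3' : (a : ℝ) + b ≤ 2 * c + 1 := by exact_mod_cast h3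
    constructor <;> linarith
  have hn : ((Nat.add r (nat_lit 1) : ℕ) : ℝ) = r + 1 := by
    show ((r + 1 : ℕ) : ℝ) = _
    push_cast
    rfl
  rw [hn]
  have m0 : 0 ≤ t j * (1 - t j) := mul_nonneg h0 (by linarith)
  have m1 : t j * (1 - t j) ≤ 1 / 2 := by nlinarith [sq_nonneg (t j - 1 / 2)]
  rw [abs_le] at h ⊢
  have m2 := mul_nonneg m0 (by linarith [hc1.2] : 0 ≤ (c : ℝ) + 1 - (a + b) / 2)
  have m3 := mul_nonneg m0 (by linarith [hc1.1] : 0 ≤ (a + b) / 2 - (c : ℝ))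
  constructor
  · nlinarith [h.1]
  · nlinarith [h.2]

theorem TOK_four (hA : AOK D lf A) (hP : PT D t) : TOK D lf t 4 (foM A) :=
  TOK.cst' hA hP (by unfold UU; norm_num)

structure BxT (D : ℕ) {α : Type} (lf : Mch α) (t : ℕ → ℝ) (p q r : ℕ) (x : ℝ) (M : BxM α) : Prop where
  kp : TOK D lf t ((Kp p : ℝ) : ℂ) M.kp
  ki : TOK D lf t ((1 / Kp p : ℝ) : ℂ) M.ki
  c : TOK D lf t ((Real.cos (phi p) : ℝ) : ℂ) M.c
  s : TOK D lf t ((Real.sin (phi p) : ℝ) : ℂ) M.s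
  h : TOK D lf t ((1 / (2 * Real.sin (phi p)) : ℝ) : ℂ) M.h
  e : TOK D lf t (ep (phi p)) M.e
  a : TOK D lf t ((Kp q ^ 2 : ℝ) : ℂ) M.a
  b : TOK D lf t ((Kp r ^ 2 : ℝ) : ℂ) M.b
  W : TOK D lf t ((cW p q r x : ℝ) : ℂ) M.W

theorem TOK_z (hA : AOK D lf A) (hP : PT D t) (z : Z) :
    TOK D lf t ((zr z / 2 ^ 48 : ℝ) : ℂ) (zM A z) := by
  refine TOK_cstC hA hP ?_
  have e : (UU : ℂ) * ((zr z / 2 ^ 48 : ℝ) : ℂ) - cz ⟨z, Z.p (nat_lit 0)⟩ = 0 := by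
    rw [UU_eq]
    apply Complex.ext
    · rw [Complex.sub_re, Complex.re_ofReal_mul, Complex.ofReal_re]
      show 2 ^ 48 * (zr z / 2 ^ 48) - ((zv z : ℤ) : ℝ) = 0
      rw [mul_div_cancel₀ _ (by positivity)]
      exact sub_self _
    · rw [Complex.sub_im, Complex.im_ofReal_mul, Complex.ofReal_im, mul_zero]
      show 0 - ((zv (Z.p (nat_lit 0)) : ℤ) : ℝ) = 0
      rw [zv_p]
      norm_num
  rw [e, norm_zero]
  exact Nat.cast_nonneg _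

/-- THE BASE IN THE MACHINE -/
theorem WB_ok (hA : AOK D lf A) (hP : PT D t) {p q r : ℕ} (hp : 3 ≤ p) (hp15 : p ≤ 15)
    (S : Sb) {a b f m : Mo α} (ta : TOK D lf t ((Kp q ^ 2 : ℝ) : ℂ) a)
    (tb : TOK D lf t ((Kp r ^ 2 : ℝ) : ℂ) b) (tf : TOK D lf t ((4 - Kp q ^ 2 : ℝ) : ℂ) f)
    (tm : TOK D lf t ((Kp r ^ 2 - Kp q ^ 2 : ℝ) : ℂ) m) :
    TOK D lf t ((WB S p q r : ℝ) : ℂ) (bsM A p S a b f m) := by
  obtain ⟨c, s0, s1, s2⟩ := S
  cases c with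
  | false =>
    have tal : TOK D lf t ((1 / (4 - Kp p ^ 2) : ℝ) : ℂ) (cst A (tA p) (nat_lit 150)) :=
      TOK_rc hA hP (tA_ok hp hp15)
    refine tc (ta.add hA (tal.mul hA hP (tf.add hA tm))) ?_
    have e2 : WB ⟨false, s0, s1, s2⟩ p q r = Kp q ^ 2 + 1 / (4 - Kp p ^ 2) *
        ((4 - Kp q ^ 2) + (Kp r ^ 2 - Kp q ^ 2)) := by
      rw [WB_false]
      unfold WA
      ring
    rw [e2]
    push_cast
    ring
  | true =>
    refine tc (((TOK_z hA hP s0).add hA ((TOK_z hA hP s1).mul hA hP ta)).add hA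
      ((TOK_z hA hP s2).mul hA hP tb)) ?_
    have e2 : WB ⟨true, s0, s1, s2⟩ p q r = zr s0 / 2 ^ 48 + zr s1 / 2 ^ 48 * Kp q ^ 2 +
        zr s2 / 2 ^ 48 * Kp r ^ 2 := by
      show (zr s0 + zr s1 * Kp q ^ 2 + zr s2 * Kp r ^ 2) / 2 ^ 48 = _
      ring
    rw [e2]
    push_cast
    ring

theorem bxS_ok (hA : AOK D lf A) (hP : PT D t) (hq : ∀ j < 3, CD D j lf (qd j)) (hD : 3 ≤ D)
    {p q r : ℕ} (hp : 3 ≤ p) (hp15 : p ≤ 15) (hq3 : 3 ≤ q) {S : Sb} {B : Bx} {x : ℝ}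
    (h : ParS p q r S B x t) : BxT D lf t p q r x (bxS A qd p S B) := by
  have ta : TOK D lf t ((Kp q ^ 2 : ℝ) : ℂ) (afM A (qd (nat_lit 0)) B.A0 B.A1 B.ra) :=
    TOK_af hA hP (hq 0 (by norm_num)) (by omega) h.a
  have ts : TOK D lf t ((sr q r : ℝ) : ℂ) (afM A (qd (nat_lit 1)) B.S0 B.S1 B.rs) :=
    TOK_af hA hP (hq 1 (by norm_num)) (by omega) h.s
  have tw : TOK D lf t ((cW p q r x - WB S p q r : ℝ) : ℂ)
      (afM A (qd (nat_lit 2)) B.W0 B.W1 (nat_lit 0)) :=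
    TOK_af hA hP (hq 2 (by norm_num)) (by omega) h.w
  obtain ⟨-, -, k4⟩ := Kp_b hq3
  have eb : (4 - Kp q ^ 2) * sr q r = Kp r ^ 2 - Kp q ^ 2 := by
    unfold sr
    rw [mul_div_cancel₀ _ k4.ne']
  have tf : TOK D lf t ((4 - Kp q ^ 2 : ℝ) : ℂ)
      (subM A (foM A) (afM A (qd (nat_lit 0)) B.A0 B.A1 B.ra)) :=
    tc ((TOK_four hA hP).sub hA ta) (by push_cast; rfl)
  have tm : TOK D lf t ((Kp r ^ 2 - Kp q ^ 2 : ℝ) : ℂ)
      (mulM A (subM A (foM A) (afM A (qd (nat_lit 0)) B.A0 B.A1 B.ra))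
        (afM A (qd (nat_lit 1)) B.S0 B.S1 B.rs)) :=
    tc (tf.mul hA hP ts) (by rw [← Complex.ofReal_mul, eb])
  have tb : TOK D lf t ((Kp r ^ 2 : ℝ) : ℂ) (addM A (afM A (qd (nat_lit 0)) B.A0 B.A1 B.ra)
      (mulM A (subM A (foM A) (afM A (qd (nat_lit 0)) B.A0 B.A1 B.ra))
        (afM A (qd (nat_lit 1)) B.S0 B.S1 B.rs))) :=
    tc (ta.add hA tm) (by rw [← Complex.ofReal_add]; congr 1; ring)
  refine ⟨TOK_rc hA hP (tK_ok hp hp15), TOK_rc hA hP (tI_ok hp hp15),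
    TOK_rc hA hP (tC_ok hp hp15), TOK_rc hA hP (tS_ok hp hp15), TOK_rc hA hP (tH_ok hp hp15),
    ?_, ta, tb, ?_⟩
  · refine TOK_cstC hA hP ?_
    have c1 := tC_ok hp hp15
    have s1 := tS_ok hp hp15
    have e1 : (UU : ℂ) * ep (phi p) - cz ⟨Z.p (tC p), Z.p (tS p)⟩ =
        ((2 ^ 48 * Real.cos (Real.pi / p) - tC p : ℝ) : ℂ) +
        ((2 ^ 48 * Real.sin (Real.pi / p) - tS p : ℝ) : ℂ) * Complex.I := by
      rw [cz_pp, ← UU_eq]
      exact cpx_sub UU (Real.cos (Real.pi / p)) (Real.sin (Real.pi / p)) _ _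
    rw [e1]
    refine (norm_add_le _ _).trans ?_
    rw [norm_mul, Complex.norm_I, mul_one, Complex.norm_real, Complex.norm_real,
      Real.norm_eq_abs, Real.norm_eq_abs]
    have := add_le_add c1 s1
    refine this.trans ?_
    norm_num
  · exact tc ((WB_ok hA hP hp hp15 S ta tb tf tm).add hA tw)
      (by rw [← Complex.ofReal_add]; congr 1; ring)

end

end Pool.Agent.Helper91.TMK.BX
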