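import Pool.Agent.Helper21.TM.M7C
import Pool.Agent.Helper26.TM.IT
import Pool.Agent.Helper82.TM.ITJ

/-!
MP_c75db0, Plan W, row M7 (Taylor models): THE INSTANCE OF THE ITEM TESTS without the runs of a
rotation (kinds 0 - 5), the inclusions.
-/

set_option autoImplicit false
noncomputable section
namespace Pool.Agent.Helper91.TMK.SW

open Matrix
open Pool.Agent.Helper86.CX (Cx andB)
open Pool.Agent.Helper86.CT (N3 Alg Mo KM nx A3 A4)
open Pool.Agent.Helper17.K9 (V9)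
open Pool.Agent.Helper12.NKT (CovD dfF)
open Pool.Agent.Helper51.FR (LE LM RTK)
open Pool.Agent.Helper26.XH (hL hR)
open Pool.Agent.Helper26.IT (RL RL_K)
open Pool.Agent.Helper26.SF (Sf)
open Pool.Agent.Helper82.TST (Fr Lc)
open Pool.Agent.Helper91.TMK.XH
open Pool.Agent.Helper91.TMK.FR
open Pool.Agent.Helper91.TMK.TST
open Pool.Agent.Helper91.TMK.IT (itK itK_K chK ch_K)
open Pool.Agent.Helper91.TMK.ITF (GT itJ itJ_ok inJ inJ_ok)
open Pool.Agent.Helper6.MONO (V3)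
open Pool.Agent.Helper6.MONO.W2
open Pool.Agent.Helper21.SW (T3 T4 lf3 lf4 Mu cK)

variable {α κ γ : Type}

/-- the tests of two forms after a conversion, depth 3, 4 -/
def g3V (M : Mn α) : GT α := geV M.V A3 Pool.Agent.Helper82.TST.Lc3
def g4V (M : Mn α) : GT (N3 α) := geV M.V4 A4 Pool.Agent.Helper82.TST.Lc4

/-- AN ITEM of kind 0 - 5 -/
def aK (M : Mn α) (T : TK α κ γ) (C : Cel κ) (c P i j : Nat) (Sl Sr : V9 α) (g : γ) : Bool :=
  itK M.A T (C.H M) (C.L M c) (C.tb c) (chK M.A c (C.tb c) (C.L M c).w) c P (C.fo i) (C.fo j)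
    Sl Sr g
/-- AN INVARIANCE ITEM of kind 0 - 5 -/
def aI (M : Mn α) (T : TK α κ γ) (C : Cel κ) (c P i f : Nat) (d : Mu × Sf) : Bool :=
  itJ M.A M.qd (g3V M) (g4V M) T (C.H M) (C.L M c) (C.tb c)
    (chK M.A c (C.tb c) (C.L M c).w) c P (C.fo i) (C.fo f) (C.fq i) (C.fq f) d
/-- THE INSTANCE without the runs of a rotation -/
def itA (M : Mn α) (T : TK α κ γ) : IT α κ γ (Mu × Sf) := ⟨aK M T, aI M T⟩
/-- AN INCLUSION -/
def aN (M : Mn α) (T : TK α κ γ) (C : Cel κ) (i e : Nat) (d : Mu × Sf) : Bool :=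
  inJ M.A M.qd (g3V M) T (C.fo i) (C.fo e) (C.fq i) d

section

variable {lf : Mch α} {M : Mn α} {KV : κ → (ℕ → ℝ) → Mt} {T : TK α κ γ} {C : Cel κ} {q r : ℕ}
  {x : ℝ} {t : ℕ → ℝ} {bc : ℕ → ℕ → Prop}

theorem Cel.L_cs (hC : PtC lf M C q r x t) (c : ℕ) :
    LOK 3 lf t C.D.p (vX C q r x) (wX C q r x) (cs c) (C.L M c) := by
  have h := hC.L (cs c)
  rwa [sc_cs] at h

theorem g3V_ok (hM : MnL lf M) : GeL 3 lf (g3V M) :=
  geV_ok Pool.Agent.Helper21.SW.a3 hM.V Pool.Agent.Helper82.TST.Lc3_ok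
theorem g4V_ok (hM : MnL lf M) : GeL 4 (nM 3 lf) (g4V M) :=
  geV_ok Pool.Agent.Helper21.SW.a4 hM.V4 Pool.Agent.Helper82.TST.Lc4_ok

theorem aK_ok (hM : MnL lf M) (hT : TKL lf (nM 3 lf) KV T) (hC : PtC lf M C q r x t)
    {c P i j : ℕ} {Sl Sr : V9 α} {g : γ} {S S' : Mt} (h : aK M T C c P i j Sl Sr g = true)
    (hl : TV 3 lf t (hL (vX C q r x) (wX C q r x) S) Sl)
    (hr : TV 3 lf t (hR (vX C q r x) (wX C q r x) S') Sr) :
    sat (RTK C.tb (nW (phi C.D.p) (vX C q r x)) bc) (phi C.D.p) (vX C q r x) (wX C q r x) (cs c)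
      (Pd P) (cK (vX C q r x) (KV (C.fo i) t)) (cK (vX C q r x) (KV (C.fo j) t)) S S' :=
  itK_K hM.n hT hC.hP hC.two hC.H (Cel.L_cs hC c) hl hr h

theorem aI_ok (hM : MnL lf M) (hT : TKL lf (nM 3 lf) KV T) (hC : PtC lf M C q r x t)
    {c P i f : ℕ} {d : Mu × Sf} (h : aI M T C c P i f d = true) :
    sati (RTK C.tb (nW (phi C.D.p) (vX C q r x)) bc) (phi C.D.p) (vX C q r x) (cs c)
      (Pd P) (cK (vX C q r x) (KV (C.fo i) t)) (cK (vX C q r x) (KV (C.fo f) t)) :=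
  have hL := Cel.L_cs hC c
  itJ_ok hM.n (g3V_ok hM) (g4V_ok hM) hT hC.hP hC.two hM.qd hC.H.hv hL.s hL.w hL.P
    (RL_K C.tb _ bc c) (ch_K hM.a3 hC.hP hL.w) h

/-- **THE LAWS OF THE INSTANCE** -/
theorem itl_A (hM : MnL lf M) (hT : TKL lf (nM 3 lf) KV T) (hC : PtC lf M C q r x t) :
    ITL lf KV (itA M T) C q r x t (RTK C.tb (nW (phi C.D.p) (vX C q r x)) bc) :=
  ⟨fun h hl hr => aK_ok hM hT hC h hl hr, fun h => aI_ok hM hT hC h⟩

theorem aN_ok (hM : MnL lf M) (hT : TKL lf (nM 3 lf) KV T) (hC : PtC lf M C q r x t)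
    {i e : ℕ} {d : Mu × Sf} (h : aN M T C i e d = true) :
    NZ (cK (vX C q r x) (KV (C.fo e) t)) ⊆ NZ (cK (vX C q r x) (KV (C.fo i) t)) :=
  inJ_ok hM.n (g3V_ok hM) hT hC.hP hC.two hM.qd h

end

end Pool.Agent.Helper91.TMK.SW
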