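import Pool.Agent.Helper21.TM.GBN
import Pool.Agent.Helper21.TM.MT0
import Pool.Agent.Helper51.TM.M7E
import Pool.Agent.Helper62.TM.NBX
import Pool.Agent.Helper84.TM.KMT
import Pool.Agent.Helper84.TM.NX
import Pool.Agent.Helper55.TM.CV
import Pool.Agent.Helper91.TM.S

/-!
MP_c75db0, Plan W, row M7: THE TAYLOR MACHINE AND THE TESTS OF A CELL. From the tests of a cell to a
piece of the window.
-/

set_option autoImplicit false
noncomputable section
namespace Pool.Agent.Helper21.TC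

open Pool.Agent.Helper90.KMT (PT)
open Pool.Agent.Helper86.C75 (Z)
open Pool.Agent.Helper86.CX (Cx andB)
open Pool.Agent.Helper86.CT (N3 Alg Mo KM A3 A4)
open Pool.Agent.Helper17.N9 (Kf KfM)
open Pool.Agent.Helper12.NKT (CovD)
open Pool.Agent.Helper26.SF (Sf)
open Pool.Agent.Helper62.NBD (GB)
open Pool.Agent.Helper62.NBM (utM wtM)
open Pool.Agent.Helper84.TM (ct ct_ok kmT HK_kmT)
open Pool.Agent.Helper55.CV (cvV cvV_ok)
open Pool.Agent.Helper91.BX (PcG)
open Pool.Agent.Helper91.TM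
open Pool.Agent.Helper91.TMK (nM)
open Pool.Agent.Helper91.TMK.NBM
open Pool.Agent.Helper91.TMK.NBX (gtM gbB itGI itl_G TOK_gt)
open Pool.Agent.Helper91.TMK.SW
open Pool.Agent.Helper91.TMK.TST
open Pool.Agent.Helper91.TMK.ITF (GT)
open Pool.Agent.Helper6.MONO (fB V3)
open Pool.Agent.Helper6.MONO.W2 (Mt)
open Pool.Agent.Helper6.MONO.W2.TY (r4T)
open Pool.Agent.Helper21.SW (T3 T4 lf3 lf4 Mu SE)

/-- THE TAYLOR MACHINE -/
def MT : Mn TP := ⟨AT, qtT, sqT, cvV, nxV cvV⟩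

/-- THE LAWS -/
theorem MT_ok : MnL lfT MT where
  n := AT_okn
  qd := CD3
  sq := fun h => sqT_vl h
  V := cvV_ok
  V4 := cvV_ok.nx

/-- the test of two forms -/
def G3 : GT TP := geV MT.V A3 Pool.Agent.Helper82.TST.Lc3

section

variable {γ : Type}

/-- THE TESTS AND THE MODELS OF THE FORMS; `T`: tests of the quadratic functions -/
def TT (T : Pool.Agent.Helper21.SW.TK Kf γ) : TK TP Kf γ := tkV MT A3 A4 T kmT

/-- the forms -/
def KV (k : Kf) (t : ℕ → ℝ) : Mt := KfM k t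

theorem TT_ok {T : Pool.Agent.Helper21.SW.TK Kf γ} (hT : Pool.Agent.Helper21.SW.TKL KV T) :
    TKL lfT (nM 3 lfT) KV (TT T) :=
  tkV_ok MT_ok.V MT_ok.V4 Pool.Agent.Helper21.SW.a3 Pool.Agent.Helper21.SW.a4 hT
    (fun {k} {_} hP => HK_kmT hP k)

end

/-! ### the runs of a rotation -/

/-- `2 (Re T - 1)` and `T - conj T` for the trace `T` -/
def uT (C : Cel Kf) : Mo TP := utM AT (gtM AT (C.x MT).e (C.H MT))
def wT (C : Cel Kf) : Mo TP := wtM AT (gtM AT (C.x MT).e (C.H MT))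
/-- the data of the runs -/
def dT (C : Cel Kf) (g : GN) : GB TP := gnB MT ct (uT C) (wT C) g
/-- the test of the runs -/
def gbT (C : Cel Kf) (g : GN) : Bool := cond C.D.gb (gbB MT C (dT C g)) true

section

variable {γ : Type} {C : Cel Kf} {q r : ℕ} {x : ℝ} {t : ℕ → ℝ}

theorem dT_vl (hC : PtC lfT MT C q r x t) (g : GN) :
    VLT (dT C g).nd.c ∧ VLT (dT C g).nd.s := by
  have hA := MT_ok.a3
  have hT := TOK_gt hA hC.hP hC.H.hv hC.bx.e
  have hU : VLT (uT C).v := hA.vsub (hA.vadd hT.val.vl (hA.vcj hT.val.vl))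
    (hA.vadd (hA.vcs _) (hA.vcs _))
  have hW : VLT (wT C).v := hA.vsub hT.val.vl (hA.vcj hT.val.vl)
  exact gnB_vl MT_ok (fun x => (ct_ok x).1) hU hW g

/-- THE ITEM TESTS -/
def itT (T : Pool.Agent.Helper21.SW.TK Kf γ) (C : Cel Kf) (g : GN) :
    IT TP Kf (List γ) (Mu × Sf) := itGI MT (TT T) (dT C g)

/-- **THE TESTS OF A CELL** -/
structure CelT (T : Pool.Agent.Helper21.SW.TK Kf γ) (C : Cel Kf) (g : GN)
    (ms : List (List (Mu × Sf))) (E : SE) : Prop where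
  ck : Pool.Agent.Helper12.NKT.ck C.D = true
  ce : ceK MT C = true
  le : leA MT C = true
  gb : gbT C g = true
  it : ItsA MT (itT T C g) C C.D.it
  i1 : IvsA (itT T C g) C C.D.i1
  ic : incB MT G3 (TT T) C ms = true
  se : seK0 MT G3 (TT T) C E = true

/-- **A PIECE OF THE WINDOW FROM THE TESTS OF A CELL** -/
theorem CelT.pc {T : Pool.Agent.Helper21.SW.TK Kf γ} (hT : Pool.Agent.Helper21.SW.TKL KV T)
    {g : GN} {ms : List (List (Mu × Sf))} {E : SE} (h : CelT T C g ms E)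
    (h4 : r4T C.D.p C.B.A0 C.B.ra C.B.S0 C.B.rs = true) {Q : ℕ → ℕ → ℝ → Prop} {m : ℝ}
    (hQ : ∀ q r x, Q q r x → C.D.gb = true → 0 ≤ fB C.D.p q r x) :
    PcG Q C.D.p m C.B.A0 C.B.A1 C.B.ra C.B.S0 C.B.S1 C.B.rs C.S C.B.W0 C.S C.B.W1 := by
  have hg : C.D.gb = true → gbB MT C (dT C g) = true := by
    intro e
    have k := h.gb
    unfold gbT at k
    rw [e] at k
    exact k
  have h7 : C.D.gb = true → 4 ≤ C.D.p := fun e => by
    have k : 7 ≤ C.D.p := Nat.le_of_ble_eq_true (Pool.Agent.Helper90.KMO.andB_t (hg e)).1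
    omega
  have hI : CelK MT (itT T C g) C := ⟨h.ck, h.ce, h.le, h.it, h.i1⟩
  have hL : CelL lfT KV MT (itT T C g) C E.U (Pool.Agent.Helper82.TST.uv E.y)
      Pool.Agent.Helper51.FR.cbd := {
    gb := h7
    it := fun hC => itl_G MT_ok (TT_ok hT) hC (dT_vl hC g).1 (dT_vl hC g).2 hg
    ic := fun hC => hC.ic MT_ok (TT_ok hT) (g3V_ok MT_ok) h.ic
    se := fun hC => hC.se MT_ok (TT_ok hT) (g3V_ok MT_ok) h.se
    ind := seK0_ind h.se }
  exact hI.pc MT_ok hL h4 hQ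

end

end Pool.Agent.Helper21.TC
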