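import Pool.Agent.Helper21.TM.M7A
import Pool.Agent.Helper62.C75.NBD

/-!
MP_c75db0, Plan W, row M7 (Taylor models): the data of the runs of a rotation of length 2 for a
machine: refinement of the start values of `C = Re μ` by steps `C ← C - 4 G (C) I`, approximate
root of `1 - C²`.
-/

set_option autoImplicit false
noncomputable section
namespace Pool.Agent.Helper91.TMK.SW

open Pool.Agent.Helper90.KMO (UU UU_pos)
open Pool.Agent.Helper86.C75 (Z)
open Pool.Agent.Helper86.CX (Cx andB one1)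
open Pool.Agent.Helper86.CT (N3 Alg Mo mk cst addM subM mulM conjM)
open Pool.Agent.Helper62.NBM (ND gbM dbM u8M ga1 ga2)
open Pool.Agent.Helper62.NBD (BP GB)
open Pool.Agent.Helper62.TVM (cstC)
open Pool.Agent.Helper21.SW (T3)

/-- machine free data: start values of `C` and of the inverse derivative, radius of `C`, root and
inverse of the centre of `1 - C²`, lower bound and centre of `s`, pieces -/
structure GN where
  c0 : T3
  i0 : T3
  r : Nat
  sR : Nat
  iR : Nat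
  m : Nat
  n : Nat
  bp : List BP

section

variable {α : Type}

/-- `4 G (c)`, values -/
def gnG (A : Alg α) (U W : Mo α) (c : α) : α := (gbM A U W (mk A c (nat_lit 0))).v
/-- one step -/
def gnS (A : Alg α) (U W : Mo α) (i c : α) : α := A.sub c (A.mul (gnG A U W c) i)
/-- three steps -/
def gn3 (A : Alg α) (U W : Mo α) (i c : α) : α := gnS A U W i (gnS A U W i (gnS A U W i c))
/-- `1 - c²` -/
def gnF (A : Alg α) (c : α) : α := A.sub (A.cs one1) (A.mul c c)
def gnD (M : Mn α) (d : GN) (c : α) : GB α :=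
  ⟨⟨c, d.r, M.sq d.sR d.iR (gnF M.A c), d.m, d.n⟩, d.bp⟩
/-- THE DATA FOR THE MACHINE: `ct` trees to numbers, `U = 2 (Re T - 1)`, `W = T - conj T` -/
def gnB (M : Mn α) (ct : T3 → α) (U W : Mo α) (d : GN) : GB α :=
  gnD M d (gn3 M.A U W (ct d.i0) (ct d.c0))

variable {lf : Mch α} {M : Mn α}

theorem gbM_vl (h : MnL lf M) {U W Y : Mo α} (hU : lf.vl U.v) (hW : lf.vl W.v) (hY : lf.vl Y.v) :
    lf.vl (gbM M.A U W Y).v := by
  have hA := h.a3
  have h2 := hA.vmul hY hY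
  have h8 := hA.vadd hU (hA.vadd (hA.vadd (hA.vadd h2 h2) (hA.vadd h2 h2))
    (hA.vadd (hA.vadd h2 h2) (hA.vadd h2 h2)))
  exact hA.vadd (hA.vmul (hA.vsub (hA.vcs _) h2) (hA.vmul h8 h8)) (hA.vmul (hA.vmul hW hW) h2)

theorem gnS_vl (h : MnL lf M) {U W : Mo α} (hU : lf.vl U.v) (hW : lf.vl W.v) {i c : α}
    (hi : lf.vl i) (hc : lf.vl c) : lf.vl (gnS M.A U W i c) :=
  h.a3.vsub hc (h.a3.vmul (gbM_vl h hU hW hc) hi)

/-- VALIDITY OF THE DATA -/
theorem gnB_vl (h : MnL lf M) {ct : T3 → α} (hct : ∀ x, lf.vl (ct x)) {U W : Mo α}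
    (hU : lf.vl U.v) (hW : lf.vl W.v) (d : GN) :
    lf.vl (gnB M ct U W d).nd.c ∧ lf.vl (gnB M ct U W d).nd.s := by
  have h3 : lf.vl (gn3 M.A U W (ct d.i0) (ct d.c0)) :=
    gnS_vl h hU hW (hct _) (gnS_vl h hU hW (hct _) (gnS_vl h hU hW (hct _) (hct _)))
  exact ⟨h3, h.sq (h.a3.vsub (h.a3.vcs _) (h.a3.vmul h3 h3))⟩

end

end Pool.Agent.Helper91.TMK.SW
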