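import Pool.Agent.Helper21.TM.M7B
import Pool.Agent.Helper21.TM.BX
import Pool.Agent.Helper53.TM.Frame2
import Pool.Agent.Helper53.TM.Let
import Pool.Agent.Helper84.TM.NX
import Pool.Agent.Helper12.CW.CT0

/-!
MP_c75db0, Plan W, row M7 (Taylor models): the models of a cell at a point.
-/

set_option autoImplicit false
noncomputable section
namespace Pool.Agent.Helper91.TMK.SW

open Matrix
open Pool.Agent.Helper90.KMO (UU UU_pos UUc_ne cz zv zv_p andB_t)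
open Pool.Agent.Helper86.C75 (Z)
open Pool.Agent.Helper86.CX (Cx andB)
open Pool.Agent.Helper86.CT (N3 Alg Mo KM mk cst addM subM mulM conjM nx)
open Pool.Agent.Helper17.K9 (V9)
open Pool.Agent.Helper62.TVM (C9 cstV V3m)
open Pool.Agent.Helper62.SQM (sqM)
open Pool.Agent.Helper12.NKT (CovD)
open Pool.Agent.Helper51.FR (LE LM FrH FrM frC ltM fF fX fY fG fH BxM frOK)
open Pool.Agent.Helper26.XH (FH fhM)
open Pool.Agent.Helper91.BX (Bx Sb bxS frR ParS)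
open Pool.Agent.Helper91.TMK.XH (HOK HOK_fh)
open Pool.Agent.Helper91.TMK.FR
open Pool.Agent.Helper91.TMK.TST
open Pool.Agent.Helper6.MONO (V3 Kp xA xA_gt fB)
open Pool.Agent.Helper6.MONO.W2
open Pool.Agent.Helper21.SW (T3 T4 lf3 lf4 sc_mod sc_div2)

/-- THE LAWS OF A MACHINE -/
structure MnL {α : Type} (lf : Mch α) (M : Mn α) : Prop where
  n : AOKn 2 3 lf M.A
  qd : ∀ j < 3, Pool.Agent.Helper91.TMK.BX.CD 3 j lf (M.qd j)
  sq : ∀ {s i : ℕ} {x : α}, lf.vl x → lf.vl (M.sq s i x)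
  V : CvtL 3 lf lf3 M.V
  V4 : CvtL 4 (nM 3 lf) lf4 M.V4

section

variable {α : Type} {lf : Mch α} {M : Mn α} {t : ℕ → ℝ}

theorem MnL.a3 (h : MnL lf M) : AOK 3 lf M.A := h.n.toAOKc.mono (by norm_num)
theorem MnL.a4 (h : MnL lf M) : AOK 4 (nM 3 lf) (nx M.A) := AOK_nx h.n

/-- the models of the box in the form of row M2 -/
theorem BxT_fr {D p q r : ℕ} {x : ℝ} {X : Pool.Agent.Helper91.BX.BxM α}
    (h : Pool.Agent.Helper91.TMK.BX.BxT D lf t p q r x X) :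
    BxOK D lf t p (cW p q r x) (Kp q ^ 2) (Kp r ^ 2) (frR X) :=
  ⟨h.a, h.b, h.W, h.ki, h.h, h.e⟩

/-- the hints are valid -/
theorem frH_vl (h : MnL lf M) (hP : PT 3 t) {p : ℕ} {W a b : ℝ} {x : BxM α}
    (hx : BxOK 3 lf t p W a b x) (n : FrN) : FrHv lf (frH M x n) := by
  have hA := h.a3
  have hX := (((hx.W.add hA hx.W).sub hA hx.a).sub hA hx.b).mul hA hP hx.k
  have hY := (hx.a.sub hA hx.b).mul hA hP hx.s
  have hF := ((hx.W.mul hA hP hx.W).sub hA (hX.mul hA hP hX)).sub hA (hY.mul hA hP hY)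
  have hF' : lf.vl (fF M.A x.W (fX M.A x) (fY M.A x)).v := hF.val.vl
  have h1 : lf.vl (M.sq n.sR n.iR (fF M.A x.W (fX M.A x) (fY M.A x)).v) := h.sq hF'
  exact ⟨h1, h.sq (hA.vmul (hA.vcs _) (hA.vadd hx.W.val.vl h1)),
    h.sq (hA.vsub hx.W.val.vl (hA.vcs _))⟩

/-! ### at a point -/

variable {κ : Type} {C : Cel κ} {q r : ℕ} {x : ℝ}

/-- THE BASE TEST OF A CELL -/
def ceK {α κ : Type} (M : Mn α) (C : Cel κ) : Bool :=
  andB (Nat.ble (nat_lit 3) C.D.p) (andB (Nat.ble C.D.p (nat_lit 15)) (frOK M.A (C.x M) (C.hh M)))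

/-- EVERYTHING AT A POINT OF THE CELL -/
structure PtC (lf : Mch α) (M : Mn α) (C : Cel κ) (q r : ℕ) (x : ℝ) (t : ℕ → ℝ) : Prop where
  hp : 3 ≤ C.D.p
  hp15 : C.D.p ≤ 15
  hpq : C.D.p ≤ q
  hqr : q ≤ r
  hr4 : 4 ≤ r
  hxA : xA C.D.p q r ≤ x
  hx2 : x < 2
  hQ : C.D.gb = true → 0 ≤ fB C.D.p q r x
  hP : PT 3 t
  par : ParS C.D.p q r C.S C.B x t
  bx : BxOK 3 lf t C.D.p (cW C.D.p q r x) (Kp q ^ 2) (Kp r ^ 2) (C.x M)
  fr : FrOK 3 lf t C.D.p (cW C.D.p q r x) (Kp q ^ 2) (Kp r ^ 2) (C.f M)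
  R2 : 0 < cW C.D.p q r x ^ 2 - cX C.D.p (cW C.D.p q r x) (Kp q ^ 2) (Kp r ^ 2) ^ 2 -
    cY C.D.p (Kp q ^ 2) (Kp r ^ 2) ^ 2
  W2 : 2 < cW C.D.p q r x
  two : brJ 1 (vX C q r x) (vX C q r x) = 2
  H : HOK 3 lf t (vX C q r x) (wX C q r x) (C.H M)
  L : ∀ g : Sy, LOK 3 lf t C.D.p (vX C q r x) (wX C q r x) g (C.L M (sc g))

theorem Cel.L_sc (M : Mn α) (C : Cel κ) (g : Sy) :
    C.L M (sc g) = ltM M.A (C.x M) (C.f M) g.1 g.2 := by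
  unfold Cel.L
  rw [sc_mod, sc_div2]

/-- **THE MODELS AT A POINT WITH GIVEN PARAMETERS** -/
theorem ptC_of (hM : MnL lf M) (hb : ceK M C = true) (hpq : C.D.p ≤ q) (hqr : q ≤ r)
    (hr4 : 4 ≤ r) (hxA : xA C.D.p q r ≤ x) (hx2 : x < 2)
    (hQ : C.D.gb = true → 0 ≤ fB C.D.p q r x) (hP : PT 3 t)
    (hpar : ParS C.D.p q r C.S C.B x t) : PtC lf M C q r x t := by
  obtain ⟨h1, h⟩ := andB_t hb
  obtain ⟨h2, hf⟩ := andB_t h
  have hp : 3 ≤ C.D.p := Nat.le_of_ble_eq_true h1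
  have hp15 : C.D.p ≤ 15 := Nat.le_of_ble_eq_true h2
  have hq : 3 ≤ q := hp.trans hpq
  have hr : 3 ≤ r := hq.trans hqr
  have hx1 : -2 < x := lt_of_lt_of_le (xA_gt hp hq hqr) hxA
  have hbx := Pool.Agent.Helper91.TMK.BX.bxS_ok hM.a3 hP hM.qd le_rfl hp hp15 hq hpar
  obtain ⟨htt, _, two, hre, _, _⟩ := ptF_k hp hpq hqr hr4 hxA hx2
  have hB : BxOK 3 lf t C.D.p (cW C.D.p q r x) (Kp q ^ 2) (Kp r ^ 2) (C.x M) := BxT_fr hbx
  obtain ⟨hF, hR2, hW2⟩ := frame_x hM.a3 hP hp hq hr hx1 hx2 htt.le (frH_vl hM hP hB C.h) hB hf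
  refine ⟨hp, hp15, hpq, hqr, hr4, hxA, hx2, hQ, hP, hpar, hB, hF, hR2, hW2, two,
    Pool.Agent.Helper25.FHN.HOK_fhN hM.a3 hP hF.v hF.w two hre (Complex.conj_ofReal _)
      (Complex.conj_ofReal _) (Complex.conj_ofReal _) (Complex.conj_ofReal _), fun g => ?_⟩
  rw [C.L_sc M g]
  exact LOK_lt hM.a3 hP hB hF hR2 hW2 g

end

end Pool.Agent.Helper91.TMK.SW
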