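import Pool.Agent.Helper21.TM.M7T
import Pool.Agent.Helper21.SW.M7B

/-!
MP_c75db0, Plan W, row M7 (Taylor models): the lists of items of a cell.
-/

set_option autoImplicit false
noncomputable section
namespace Pool.Agent.Helper91.TMK.SW

open Matrix
open Pool.Agent.Helper90.KMO (UU UU_pos UUc_ne cz zv zv_p andB_t)
open Pool.Agent.Helper86.C75 (Z)
open Pool.Agent.Helper86.CX (Cx andB)
open Pool.Agent.Helper86.CT (N3 Alg Mo KM mk cst addM subM mulM conjM nx)
open Pool.Agent.Helper17.K9 (V9)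
open Pool.Agent.Helper62.TVM (C9 cstV V3m)
open Pool.Agent.Helper12.NKT (CovD Fm Le Lt Lt1 siT dfF)
open Pool.Agent.Helper26.XM (ajV gaV)
open Pool.Agent.Helper26.XH (FH fhM lhM rhM' hL hR)
open Pool.Agent.Helper91.TMK.XM
open Pool.Agent.Helper91.TMK.XH
open Pool.Agent.Helper91.TMK.TST
open Pool.Agent.Helper6.MONO (V3 Kp xA fB)
open Pool.Agent.Helper6.MONO.W2 (Mt NT NZ rfJ adJ RPar sat sati phi cs Pd vC wC cW)
open Pool.Agent.Helper6.MONO.W2.TY (leF leG fmC)
open Pool.Agent.Helper21.SW (T3 T4 lf3 lf4 Mu S9 s9C z9 cmR dLE cK stN al2 stN_eq al2_t adJ_s9)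

/-! ### kernel side: lists -/

/-- kernel side of the items: `k` the test of an item, `i` the test of an invariance item;
arguments: cell, code of the syllable, part, numbers of the forms, models of `L^`, `R^`, data -/
structure IT (α κ γ δ : Type) where
  k : Cel κ → Nat → Nat → Nat → Nat → V9 α → V9 α → γ → Bool
  i : Cel κ → Nat → Nat → Nat → Nat → δ → Bool

section

variable {α κ γ δ : Type}

/-- an item over the syllable `c`, part `P`, classes `gl` (inverse type), `gr` (type) -/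
def itE (M : Mn α) (I : IT α κ γ δ) (C : Cel κ) (c P gl gr i j : Nat) (h : γ) : Bool :=
  stN (fun ci => stN (fun cj => I.k C c P i j (lhM M.A (C.H M) (C.g M ci gl))
    (rhM' M.A (C.H M) (C.g M gr cj)) h) (fmC C.D j)) (fmC C.D i)
def itP (M : Mn α) (I : IT α κ γ δ) (C : Cel κ) (c P gl gr : Nat) (e : Nat × Nat × Unit)
    (h : γ) : Bool :=
  Prod.rec (motive := fun _ => Bool) (fun i x => Prod.rec (motive := fun _ => Bool)
    (fun j _ => itE M I C c P gl gr i j h) x) e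
def itQ (M : Mn α) (I : IT α κ γ δ) (C : Cel κ) (c gl gr : Nat)
    (Q : Nat × List (Nat × Nat × Unit)) (H : List γ) : Bool :=
  Prod.rec (motive := fun _ => Bool) (fun P l => al2 (itP M I C c P gl gr) l H) Q
def itT (M : Mn α) (I : IT α κ γ δ) (C : Cel κ) (l : List (Nat × List (Nat × Nat × Unit)))
    (H : List (List γ)) (c gl gr : Nat) : Bool := al2 (itQ M I C c gl gr) l H
/-- THE ITEMS OVER THE TYPE `g`, a list of parts -/
def itS (M : Mn α) (I : IT α κ γ δ) (C : Cel κ) (g : Nat)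
    (l : List (Nat × List (Nat × Nat × Unit))) (H : List (List γ)) : Bool :=
  stN (fun c => stN (fun gl => stN (fun gr => itT M I C l H c gl gr) (leG C.D g))
    (leG C.D (siT C.D.p g))) (Nat.mod g (nat_lit 32))

def i1E (I : IT α κ γ δ) (C : Cel κ) (c P f i : Nat) (h : δ) : Bool := I.i C c P i f h
def i1P (I : IT α κ γ δ) (C : Cel κ) (c P f : Nat) (e : Nat × Unit) (h : δ) : Bool :=
  Prod.rec (motive := fun _ => Bool) (fun i _ => i1E I C c P f i h) e
def i1Q (I : IT α κ γ δ) (C : Cel κ) (c f : Nat) (Q : Nat × List (Nat × Unit)) (H : List δ) :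
    Bool :=
  Prod.rec (motive := fun _ => Bool) (fun P l => al2 (i1P I C c P f) l H) Q
def i1T (I : IT α κ γ δ) (C : Cel κ) (l : List (Nat × List (Nat × Unit))) (H : List (List δ))
    (c f : Nat) : Bool := al2 (i1Q I C c f) l H
/-- THE INVARIANCE ITEMS OVER THE TYPE `g`, a list of parts -/
def i1S (I : IT α κ γ δ) (C : Cel κ) (g : Nat) (l : List (Nat × List (Nat × Unit)))
    (H : List (List δ)) : Bool :=
  stN (fun c => stN (fun f => i1T I C l H c f) (leF C.D g)) (Nat.mod g (nat_lit 32))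

/-! ### the tested parts -/

/-- the parts `l` of the type `g` are tested -/
def ItsK (M : Mn α) (I : IT α κ γ δ) (C : Cel κ) (g : Nat)
    (l : List (Nat × List (Nat × Nat × Unit))) : Prop :=
  ∀ Q ∈ l, ∃ H, itQ M I C (g % 32) (leG C.D (siT C.D.p g)) (leG C.D g) Q H = true
def IvsK (I : IT α κ γ δ) (C : Cel κ) (g : Nat) (l : List (Nat × List (Nat × Unit))) : Prop :=
  ∀ Q ∈ l, ∃ H, i1Q I C (g % 32) (leF C.D g) Q H = true

variable {M : Mn α} {I : IT α κ γ δ} {C : Cel κ}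

theorem itS_ok {g : Nat} {l : List (Nat × List (Nat × Nat × Unit))}
    {H : List (List γ)} (h : itS M I C g l H = true) : ItsK M I C g l := by
  unfold itS at h
  rw [stN_eq, stN_eq, stN_eq] at h
  exact fun Q hQ => al2_t h Q hQ
theorem i1S_ok {g : Nat} {l : List (Nat × List (Nat × Unit))}
    {H : List (List δ)} (h : i1S I C g l H = true) : IvsK I C g l := by
  unfold i1S at h
  rw [stN_eq, stN_eq] at h
  exact fun Q hQ => al2_t h Q hQ

theorem ItsK.nil {g : Nat} : ItsK M I C g [] := fun _ hQ => absurd hQ (by simp)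
theorem IvsK.nil {g : Nat} : IvsK I C g [] := fun _ hQ => absurd hQ (by simp)
theorem ItsK.app {g : Nat} {l l' : List (Nat × List (Nat × Nat × Unit))} (h : ItsK M I C g l)
    (h' : ItsK M I C g l') : ItsK M I C g (l ++ l') :=
  fun Q hQ => (List.mem_append.1 hQ).elim (h Q) (h' Q)
theorem IvsK.app {g : Nat} {l l' : List (Nat × List (Nat × Unit))} (h : IvsK I C g l)
    (h' : IvsK I C g l') : IvsK I C g (l ++ l') :=
  fun Q hQ => (List.mem_append.1 hQ).elim (h Q) (h' Q)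

/-- all types of a list -/
def ItsA (M : Mn α) (I : IT α κ γ δ) (C : Cel κ) (l : List (Lt Unit)) : Prop :=
  ∀ L ∈ l, ItsK M I C L.g L.ps
def IvsA (I : IT α κ γ δ) (C : Cel κ) (l : List (Lt1 Unit)) : Prop := ∀ L ∈ l, IvsK I C L.g L.ps

theorem ItsA.nil : ItsA M I C [] := fun _ hL => absurd hL (by simp)
theorem IvsA.nil : IvsA I C [] := fun _ hL => absurd hL (by simp)
theorem ItsA.cons {L : Lt Unit} {l : List (Lt Unit)} (h : ItsK M I C L.g L.ps)
    (h' : ItsA M I C l) : ItsA M I C (L :: l) := fun N hN =>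
  (List.mem_cons.1 hN).elim (fun e => e ▸ h) (h' N)
theorem IvsA.cons {L : Lt1 Unit} {l : List (Lt1 Unit)} (h : IvsK I C L.g L.ps)
    (h' : IvsA I C l) : IvsA I C (L :: l) := fun N hN =>
  (List.mem_cons.1 hN).elim (fun e => e ▸ h) (h' N)

/-! ### real side -/

/-- the polar vector and its derivative at a point -/
abbrev vX (C : Cel κ) (q r : ℕ) (x : ℝ) : V3 := vC C.D.p (cW C.D.p q r x) (Kp q ^ 2) (Kp r ^ 2)
abbrev wX (C : Cel κ) (q r : ℕ) (x : ℝ) : V3 := wC C.D.p (cW C.D.p q r x) (Kp q ^ 2) (Kp r ^ 2)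

/-- THE LAWS OF THE ITEM TESTS, `R`: the parameters of the families at the point -/
structure ITL (lf : Mch α) (KV : κ → (ℕ → ℝ) → Mt) (I : IT α κ γ δ) (C : Cel κ) (q r : ℕ) (x : ℝ)
    (t : ℕ → ℝ) (R : RPar) : Prop where
  k : ∀ {c P i j : ℕ} {Sl Sr : V9 α} {g : γ} {S S' : Mt},
    I.k C c P i j Sl Sr g = true → TV 3 lf t (hL (vX C q r x) (wX C q r x) S) Sl →
    TV 3 lf t (hR (vX C q r x) (wX C q r x) S') Sr →
    sat R (phi C.D.p) (vX C q r x) (wX C q r x) (cs c) (Pd P) (cK (vX C q r x) (KV (C.fo i) t))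
      (cK (vX C q r x) (KV (C.fo j) t)) S S'
  i : ∀ {c P i f : ℕ} {m : δ}, I.i C c P i f m = true →
    sati R (phi C.D.p) (vX C q r x) (cs c) (Pd P) (cK (vX C q r x) (KV (C.fo i) t))
      (cK (vX C q r x) (KV (C.fo f) t))

variable {lf : Mch α} {KV : κ → (ℕ → ℝ) → Mt} {q r : ℕ} {x : ℝ} {t : ℕ → ℝ} {R : RPar}

/-- the forms at the point -/
def KC (KV : κ → (ℕ → ℝ) → Mt) (C : Cel κ) (q r : ℕ) (x : ℝ) (t : ℕ → ℝ) (i : ℕ) : Mt :=
  cK (vX C q r x) (KV (C.fo i) t)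

theorem TV_cm {D : ℕ} {A : Alg α} (hA : AOK D lf A)
    (hP : PT D t) (c : C9) : TV D lf t (cmR c) (cstV A c (nat_lit 0)) := by
  refine TV_cst hA hP fun i j => ?_
  have e : (UU : ℂ) * cmR c i j = cz (c.get i j) := by
    show (UU : ℂ) * (cz (c.get i j) / UU) = _
    rw [mul_div_cancel₀ _ UUc_ne]
  rw [e, sub_self, norm_zero]
  exact Nat.cast_nonneg _

/-- the gauge of two classes -/
def gR (C : Cel κ) (i j : ℕ) : Mt := cmR (s9C C.s0) + cmR (C.xk i) - adJ (cmR (C.xk j))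

theorem TV_g (hA : AOK 3 lf M.A) (hP : PT 3 t) (C : Cel κ) (i j : ℕ) :
    TV 3 lf t (gR C i j) (C.g M i j) :=
  TV_ga hA hP (TV_cm hA hP _) (TV_cm hA hP _) (TV_cm hA hP _)

/-- ITEMS -/
theorem its_sat (hA : AOK 3 lf M.A) (hP : PT 3 t)
    (hH : HOK 3 lf t (vX C q r x) (wX C q r x) (C.H M)) (hI : ITL lf KV I C q r x t R)
    {L : Lt Unit} (h : ItsK M I C L.g L.ps) : ∀ Q ∈ L.ps, ∀ e ∈ Q.2,
    sat R (phi C.D.p) (vX C q r x) (wX C q r x) (cs (L.g % 32)) (Pd Q.1)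
      (KC KV C q r x t e.1) (KC KV C q r x t e.2.1)
      (cmR (s9C C.s0) + cmR (C.xk (fmC C.D e.1)) - adJ (cmR (C.xk (leG C.D (siT C.D.p L.g)))))
      (cmR (s9C C.s0) + cmR (C.xk (leG C.D L.g)) - adJ (cmR (C.xk (fmC C.D e.2.1)))) := by
  intro Q hQ e he
  obtain ⟨HQ, h1⟩ := h Q hQ
  obtain ⟨P, l⟩ := Q
  obtain ⟨g, h2⟩ := al2_t (show al2 (itP M I C (L.g % 32) P
    (leG C.D (siT C.D.p L.g)) (leG C.D L.g)) l HQ = true from h1) e he
  obtain ⟨i, j, u⟩ := e
  have h3 : itE M I C (L.g % 32) P (leG C.D (siT C.D.p L.g)) (leG C.D L.g) i j g = true := h2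
  unfold itE at h3
  rw [stN_eq, stN_eq] at h3
  exact hI.k h3 (TV_lh hA hP hH (TV_g hA hP C _ _)) (TV_rh hA hP hH (TV_g hA hP C _ _))

/-- INVARIANCE -/
theorem ivs_sati (hI : ITL lf KV I C q r x t R)
    {L : Lt1 Unit} (h : IvsK I C L.g L.ps) : ∀ Q ∈ L.ps, ∀ e ∈ Q.2,
    sati R (phi C.D.p) (vX C q r x) (cs (L.g % 32)) (Pd Q.1) (KC KV C q r x t e.1)
      (KC KV C q r x t (leF C.D L.g)) := by
  intro Q hQ e he
  obtain ⟨HQ, h1⟩ := h Q hQ
  obtain ⟨P, l⟩ := Q
  obtain ⟨g, h2⟩ := al2_t (show al2 (i1P I C (L.g % 32) P (leF C.D L.g)) l HQ = true from h1)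
    e he
  obtain ⟨i, u⟩ := e
  exact hI.i (show I.i C (L.g % 32) P i (leF C.D L.g) g = true from h2)

end

end Pool.Agent.Helper91.TMK.SW
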