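import Pool.Agent.Helper21.SW.M7T
import Pool.Agent.Helper21.TM.CVM
import Pool.Agent.Helper26.TM.XH
import Pool.Agent.Helper25.C75.FHN
import Pool.Agent.Helper82.CW.FRI

/-!
MP_c75db0, Plan W, row M7 (Taylor models): the data of a cell and the laws of the tests, for any
machine `Mch`. `α`: numbers of the box, `N3 α`: with the parameter of a family; `κ`: type of a form,
`γ`: data of one test.
-/

set_option autoImplicit false
noncomputable section
namespace Pool.Agent.Helper91.TMK.SW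

open Matrix
open Pool.Agent.Helper90.KMO (UU UU_pos UUc_ne cz zv zv_p andB_t)
open Pool.Agent.Helper86.C75 (Z)
open Pool.Agent.Helper86.CX (Cx andB)
open Pool.Agent.Helper86.CT (N3 Alg Mo KM mk cst addM subM mulM conjM nx)
open Pool.Agent.Helper17.K9 (V9)
open Pool.Agent.Helper62.TVM (C9 cstV V3m)
open Pool.Agent.Helper62.SQM (sqM)
open Pool.Agent.Helper12.NKT (CovD)
open Pool.Agent.Helper51.FR (LE LM PtE FrH FrM frC ltM fF fX fY fG fH BxM)
open Pool.Agent.Helper26.XM (ajV gaV)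
open Pool.Agent.Helper26.XH (FH fhM)
open Pool.Agent.Helper91.BX (Bx Sb bxS frR tu)
open Pool.Agent.Helper91.TMK.TST
open Pool.Agent.Helper6.MONO (V3)
open Pool.Agent.Helper6.MONO.W2 (Mt NT NZ rfJ)
open Pool.Agent.Helper21.SW (T3 T4 lf3 lf4 Mu S9 s9C z9 cmR dLE cK)
open Pool.Agent.Helper82.TST (Fr)

/-! ### the machine -/

/-- A MACHINE, kernel side: numbers, quadratic functions, approximate square root, conversions -/
structure Mn (α : Type) where
  A : Alg α
  qd : Nat → Cx → Cx → Cx → α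
  sq : Nat → Nat → α → α
  V : Cvt α T3
  V4 : Cvt (N3 α) T4

/-! ### the tests -/

/-- kernel side: the two tests (data, forms before and after, models of `M^` and `X^`), models of
the forms -/
structure TK (α κ γ : Type) where
  t3 : κ → κ → γ → V9 α → V9 α → Bool
  t4 : κ → κ → γ → V9 (N3 α) → V9 (N3 α) → Bool
  km : κ → KM α

/-- THE LAWS. `KV k t`: the form at the point `t` of the box -/
structure TKL {α κ γ : Type} (lf : Mch α) (lq : Mch (N3 α)) (KV : κ → (ℕ → ℝ) → Mt)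
    (T : TK α κ γ) : Prop where
  t3 : ∀ {k1 k2 : κ} {g : γ} {M X : V9 α} {t : ℕ → ℝ} {Mr Xr : Mt}, T.t3 k1 k2 g M X = true →
    PT 3 t → TV 3 lf t Mr M → TV 3 lf t Xr X → NT (KV k1 t) (KV k2 t) Xr Mr
  t4 : ∀ {k1 k2 : κ} {g : γ} {M X : V9 (N3 α)} {t : ℕ → ℝ} {Mr Xr : Mt},
    T.t4 k1 k2 g M X = true →
    PT 4 t → TV 4 lq t Mr M → TV 4 lq t Xr X → NT (KV k1 t) (KV k2 t) Xr Mr
  km : ∀ {k : κ} {t : ℕ → ℝ}, PT 3 t → HK 3 lf t (KV k t) (T.km k)
  up : ∀ {k : κ} {t : ℕ → ℝ} {u : ℝ}, KV k (tu 3 t u) = KV k t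

section

variable {α κ γ : Type}

/-- the tests of `KerT` after a conversion -/
def tkV (M : Mn α) (A3 : Alg T3) (A4 : Alg T4) (T : Pool.Agent.Helper21.SW.TK κ γ)
    (km : κ → KM α) : TK α κ γ where
  t3 k1 k2 g N X := andB (okV M.V N) (andB (okV M.V X) (T.t3 k1 k2 g (cvV M.V A3 N) (cvV M.V A3 X)))
  t4 k1 k2 g N X := andB (okV M.V4 N) (andB (okV M.V4 X)
    (T.t4 k1 k2 g (cvV M.V4 A4 N) (cvV M.V4 A4 X)))
  km := km

theorem tkV_ok {M : Mn α} {lf : Mch α} {lq : Mch (N3 α)} (hV : CvtL 3 lf lf3 M.V)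
    (hV4 : CvtL 4 lq lf4 M.V4) {A3 : Alg T3} {A4 : Alg T4}
    (h3 : Pool.Agent.Helper90.KMT.AOK 3 lf3 A3) (h4 : Pool.Agent.Helper90.KMT.AOK 4 lf4 A4)
    {KV : κ → (ℕ → ℝ) → Mt} {T : Pool.Agent.Helper21.SW.TK κ γ}
    (hT : Pool.Agent.Helper21.SW.TKL KV T) {km : κ → KM α}
    (hk : ∀ {k : κ} {t : ℕ → ℝ}, PT 3 t → HK 3 lf t (KV k t) (km k)) :
    TKL lf lq KV (tkV M A3 A4 T km) where
  t3 := fun h hP hM hX => by
    obtain ⟨o1, h⟩ := andB_t h
    obtain ⟨o2, h⟩ := andB_t h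
    exact hT.t3 h hP (TV_cv h3 hV hP hM o1) (TV_cv h3 hV hP hX o2)
  t4 := fun h hP hM hX => by
    obtain ⟨o1, h⟩ := andB_t h
    obtain ⟨o2, h⟩ := andB_t h
    exact hT.t4 h hP (TV_cv h4 hV4 hP hM o1) (TV_cv h4 hV4 hP hX o2)
  km := hk
  up := hT.up

end

/-! ### the cell -/

/-- numbers for the three roots of the frame: `s` root and `i` inverse of the centre, `m`, `c` as in
`FrH` -/
structure FrN where
  sR : Nat
  iR : Nat
  mR : Nat
  cR : Nat
  sB : Nat
  iB : Nat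
  mB : Nat
  cB : Nat
  sT : Nat
  iT : Nat
  mT : Nat
  cT : Nat

/-- THE DATA OF A CELL: combinatorial part (shared by the cells of a class), base surface, box,
numbers of the frame, families of the letters (index: code of the syllable), default form, forms,
frames of the forms, gauge -/
structure Cel (κ : Type) where
  D : CovD Unit Unit Unit
  S : Sb
  B : Bx
  h : FrN
  le : List LE
  k0 : κ
  F : List κ
  f0 : Fr
  fr : List Fr
  s0 : S9
  X : List C9

section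

variable {α κ : Type}

def fh3 (n : FrN) (a b c : α) : FrH α := ⟨a, b, c, n.mR, n.cR, n.mB, n.cB, n.mT, n.cT⟩
def fh2 (M : Mn α) (x : BxM α) (n : FrN) (a : α) (R : Mo α) : FrH α :=
  fh3 n a (M.sq n.sB n.iB (fG M.A x.W R).v) (M.sq n.sT n.iT (fH M.A x.W).v)
def fh1 (M : Mn α) (x : BxM α) (n : FrN) (F : Mo α) (a : α) : FrH α :=
  fh2 M x n a (sqM M.A n.mR F (mk M.A a (nat_lit 0)))
def fh0 (M : Mn α) (x : BxM α) (n : FrN) (F : Mo α) : FrH α := fh1 M x n F (M.sq n.sR n.iR F.v)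
/-- the hints of the frame -/
def frH (M : Mn α) (x : BxM α) (n : FrN) : FrH α :=
  fh0 M x n (fF M.A x.W (fX M.A x) (fY M.A x))

/-- the family of the syllable with code `c` -/
def Cel.tb (C : Cel κ) (c : Nat) : LE := C.le.getD c dLE
/-- the models of the box -/
def Cel.x (M : Mn α) (C : Cel κ) : BxM α := frR (bxS M.A M.qd C.D.p C.S C.B)
/-- the hints -/
def Cel.hh (M : Mn α) (C : Cel κ) : FrH α := frH M (C.x M) C.h
/-- the models of the frame -/
def Cel.f (M : Mn α) (C : Cel κ) : FrM α := frC M.A (C.x M) (C.hh M)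
/-- `v`, `vd`, `c`, `H` -/
def Cel.H (M : Mn α) (C : Cel κ) : FH α := Pool.Agent.Helper25.FHN.fhN M.A (C.f M).v (C.f M).w
/-- the models of the syllable with code `c` -/
def Cel.L (M : Mn α) (C : Cel κ) (c : Nat) : LM α :=
  ltM M.A (C.x M) (C.f M) (Nat.beq (Nat.mod c (nat_lit 2)) (nat_lit 1)) (Nat.div c (nat_lit 2))
/-- the form `i` -/
def Cel.fo (C : Cel κ) (i : Nat) : κ := C.F.getD i C.k0
/-- the frame of the form `i` -/
def Cel.fq (C : Cel κ) (i : Nat) : Fr := C.fr.getD i C.f0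
/-- constant of the class `k` of the gauge -/
def Cel.xk (C : Cel κ) (k : Nat) : C9 := C.X.getD k z9
/-- the gauge `S0 + X_i - adJ X_j` -/
def Cel.g (M : Mn α) (C : Cel κ) (i j : Nat) : V9 α :=
  gaV M.A (cstV M.A (s9C C.s0) (nat_lit 0)) (cstV M.A (C.xk i) (nat_lit 0))
    (cstV M.A (C.xk j) (nat_lit 0))

end

end Pool.Agent.Helper91.TMK.SW
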